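import Pool.Agent.Y957.VK.Stm

set_option autoImplicit false

/-! # Linnik's lemma (helper of the project VK) -/

namespace Pool.Agent.Y331.VK

open Finset
open Pool.Agent.Y957.VK (Tu)

/-- power sums determine the elementary symmetric polynomials if `1, ..., r` are units -/
theorem esymm_eq {R : Type} [CommRing R] {r : ℕ} (y y' : Fin r → R)
    (hu : ∀ k : ℕ, 1 ≤ k → k ≤ r → IsUnit (k : R))
    (hp : ∀ k : ℕ, 1 ≤ k → k ≤ r → ∑ i, y i ^ k = ∑ i, y' i ^ k) (k : ℕ) :
    k ≤ r → MvPolynomial.aeval y (MvPolynomial.esymm (Fin r) R k) =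
      MvPolynomial.aeval y' (MvPolynomial.esymm (Fin r) R k) := by
  induction k using Nat.strong_induction_on with
  | _ k ih =>
    intro hk
    rcases Nat.eq_zero_or_pos k with h0 | h0
    · subst h0
      simp
    · have key : ∀ z : Fin r → R, (k : R) * MvPolynomial.aeval z (MvPolynomial.esymm (Fin r) R k) =
          (-1) ^ (k + 1) * ∑ a ∈ antidiagonal k with a.1 < k,
            (-1) ^ a.1 * MvPolynomial.aeval z (MvPolynomial.esymm (Fin r) R a.1) *
              ∑ i, z i ^ a.2 := by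
        intro z
        have h := congrArg (MvPolynomial.aeval z) (MvPolynomial.mul_esymm_eq_sum (Fin r) R k)
        simp only [map_mul, map_natCast, map_pow, map_neg, map_one, map_sum] at h
        rw [h]
        congr 1
        refine Finset.sum_congr rfl fun a _ => ?_
        congr 1
        rw [MvPolynomial.psum, map_sum]
        refine Finset.sum_congr rfl fun i _ => ?_
        rw [map_pow, MvPolynomial.aeval_X]
      have h1 : (k : R) * MvPolynomial.aeval y (MvPolynomial.esymm (Fin r) R k) =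
          (k : R) * MvPolynomial.aeval y' (MvPolynomial.esymm (Fin r) R k) := by
        rw [key y, key y']
        congr 1
        refine Finset.sum_congr rfl fun a ha => ?_
        rw [Finset.mem_filter] at ha
        have ha1 := HasAntidiagonal.mem_antidiagonal.mp ha.1
        rw [ih a.1 ha.2 (by omega), hp a.2 (by omega) (by omega)]
      exact (hu k h0 hk).mul_left_cancel h1

theorem prod_eq {R : Type} [CommRing R] {r : ℕ} (y y' : Fin r → R)
    (hu : ∀ k : ℕ, 1 ≤ k → k ≤ r → IsUnit (k : R))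
    (hp : ∀ k : ℕ, 1 ≤ k → k ≤ r → ∑ i, y i ^ k = ∑ i, y' i ^ k) (t : R) :
    ∏ i, (t - y i) = ∏ i, (t - y' i) := by
  have key : ∀ z : Fin r → R, ∏ i, (t - z i) = Polynomial.eval t
      (∑ j ∈ range (r + 1), (-1) ^ j * (Polynomial.C
        (MvPolynomial.aeval z (MvPolynomial.esymm (Fin r) R j)) * Polynomial.X ^ (r - j))) := by
    intro z
    have h := Multiset.prod_X_sub_X_eq_sum_esymm (Multiset.map z (univ : Finset (Fin r)).val)
    have hc : Multiset.card (Multiset.map z (univ : Finset (Fin r)).val) = r := by simp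
    rw [hc, Multiset.map_map] at h
    simp only [← MvPolynomial.aeval_esymm_eq_multiset_esymm (Fin r) R] at h
    rw [← h, ← Finset.prod_eq_multiset_prod, Polynomial.eval_prod]
    refine Finset.prod_congr rfl fun i _ => ?_
    simp
  rw [key y, key y']
  congr 1
  refine Finset.sum_congr rfl fun j hj => ?_
  rw [Finset.mem_range] at hj
  rw [esymm_eq y y' hu hp j (by omega)]

theorem unit_of_red (p r : ℕ) (hp : p.Prime) (hr : r ≠ 0) (x : ZMod (p ^ r))
    (h : ZMod.castHom (dvd_pow_self p hr) (ZMod p) x ≠ 0) : IsUnit x := by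
  haveI : NeZero (p ^ r) := ⟨pow_ne_zero _ hp.ne_zero⟩
  obtain ⟨n, rfl⟩ := ZMod.natCast_zmod_surjective x
  rw [map_natCast] at h
  rw [ZMod.isUnit_iff_coprime]
  have h1 : ¬ p ∣ n := by
    intro hd
    exact h ((ZMod.natCast_eq_zero_iff n p).mpr hd)
  exact (Nat.Coprime.pow_left r ((Nat.Prime.coprime_iff_not_dvd hp).mpr h1)).symm

theorem perm_of (p r : ℕ) (hp : p.Prime) (hr : 1 ≤ r) (hrp : r < p) (y y' : Fin r → ZMod (p ^ r))
    (φ : ZMod (p ^ r) →+* ZMod p)
    (hφ : φ = ZMod.castHom (dvd_pow_self p (by omega : r ≠ 0)) (ZMod p))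
    (hy : ∀ i j, i ≠ j → φ (y i) ≠ φ (y j)) (hy' : ∀ i j, i ≠ j → φ (y' i) ≠ φ (y' j))
    (hs : ∀ k : ℕ, 1 ≤ k → k ≤ r → ∑ i, y i ^ k = ∑ i, y' i ^ k) :
    ∃ σ : Equiv.Perm (Fin r), ∀ k, y' k = y (σ k) := by
  have hu : ∀ k : ℕ, 1 ≤ k → k ≤ r → IsUnit (k : ZMod (p ^ r)) := by
    intro k h1 h2
    rw [ZMod.isUnit_iff_coprime]
    refine (Nat.Coprime.pow_left r ((Nat.Prime.coprime_iff_not_dvd hp).mpr ?_)).symm
    intro hd
    have := Nat.le_of_dvd (by omega) hd
    omega
  haveI : Nontrivial (ZMod (p ^ r)) := by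
    haveI : Fact (1 < p ^ r) := ⟨Nat.one_lt_pow (by omega) hp.one_lt⟩
    infer_instance
  have hex : ∀ k, ∃ i, y' k = y i := by
    intro k
    have h0 : ∏ i, (y' k - y i) = 0 := by
      rw [prod_eq y y' hu hs (y' k)]
      exact Finset.prod_eq_zero (Finset.mem_univ k) (sub_self _)
    by_cases h : ∃ i, φ (y' k) = φ (y i)
    · obtain ⟨i0, hi0⟩ := h
      refine ⟨i0, ?_⟩
      rw [← Finset.mul_prod_erase Finset.univ _ (Finset.mem_univ i0)] at h0
      have h2 : IsUnit (∏ i ∈ Finset.univ.erase i0, (y' k - y i)) := by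
        rw [IsUnit.prod_iff]
        intro i hi
        apply unit_of_red p r hp (by omega)
        rw [← hφ, map_sub, sub_ne_zero, hi0]
        exact (hy i i0 (Finset.ne_of_mem_erase hi)).symm
      have h3 := (IsUnit.mul_left_eq_zero h2).mp h0
      exact sub_eq_zero.mp h3
    · push Not at h
      exfalso
      have h2 : IsUnit (∏ i, (y' k - y i)) := by
        rw [IsUnit.prod_iff]
        intro i _
        apply unit_of_red p r hp (by omega)
        rw [← hφ, map_sub, sub_ne_zero]
        exact h i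
      rw [h0] at h2
      exact not_isUnit_zero h2
  choose σ hσ using hex
  have hinj : Function.Injective σ := by
    intro a b hab
    by_contra hne
    apply hy' a b hne
    rw [hσ a, hσ b, hab]
  exact ⟨Equiv.ofBijective σ (Finite.injective_iff_bijective.mp hinj), hσ⟩

theorem lin : Pool.Agent.Y957.VK.S_LIN := by
  intro r p X hr hp hrp hX a c
  haveI : NeZero (p ^ r) := ⟨pow_ne_zero _ hp.ne_zero⟩
  set F := (Tu r X).filter fun x => (∀ i j, i ≠ j → x i % p ≠ x j % p) ∧
    ∀ j ∈ Finset.Icc 1 r, (p : ℤ) ^ j ∣ ∑ i, ((x i : ℤ) - a) ^ j - c j with hF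
  set y : (Fin r → ℕ) → Fin r → ZMod (p ^ r) := fun x i => (((x i : ℤ) - a : ℤ) : ZMod (p ^ r))
    with hy
  set f : (Fin r → ℕ) → (Fin r → ZMod (p ^ r)) := fun x j => ∑ i, y x i ^ ((j : ℕ) + 1) with hf
  have hr0 : r ≠ 0 := by omega
  have hpr : 0 < p ^ r := pow_pos hp.pos r
  have hmem : ∀ x ∈ F, (∀ i, 1 ≤ x i ∧ x i ≤ X) ∧ (∀ i j, i ≠ j → x i % p ≠ x j % p) ∧
      ∀ j ∈ Finset.Icc 1 r, (p : ℤ) ^ j ∣ ∑ i, ((x i : ℤ) - a) ^ j - c j := by
    intro x hx
    rw [hF, Finset.mem_filter, Tu, Fintype.mem_piFinset] at hx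
    exact ⟨fun i => Finset.mem_Icc.mp (hx.1 i), hx.2.1, hx.2.2⟩
  set φ := ZMod.castHom (dvd_pow_self p hr0) (ZMod p) with hφ
  have hdist : ∀ x ∈ F, ∀ i j, i ≠ j → φ (y x i) ≠ φ (y x j) := by
    intro x hx i j hij h
    apply (hmem x hx).2.1 i j hij
    simp only [hy, Int.cast_sub, Int.cast_natCast, map_sub, map_natCast, map_intCast,
      sub_left_inj] at h
    exact (ZMod.natCast_eq_natCast_iff' _ _ _).mp h
  -- the fibres
  have hfib : ∀ v ∈ F.image f, (F.filter fun x => f x = v).card ≤ r.factorial := by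
    intro v hv
    obtain ⟨x0, hx0, hv0⟩ := Finset.mem_image.mp hv
    have hex : ∀ x ∈ F.filter (fun x => f x = v), ∃ σ : Equiv.Perm (Fin r),
        ∀ k, y x k = y x0 (σ k) := by
      intro x hx
      rw [Finset.mem_filter] at hx
      apply perm_of p r hp hr hrp (y x0) (y x) φ hφ (hdist x0 hx0) (hdist x hx.1)
      intro k h1 h2
      have h3 := congrFun (hv0.trans hx.2.symm) ⟨k - 1, by omega⟩
      simp only [hf] at h3
      have h4 : k - 1 + 1 = k := by omega
      rw [h4] at h3
      exact h3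
    choose! σ hσ using hex
    have hinj : Set.InjOn σ (F.filter (fun x => f x = v) : Finset (Fin r → ℕ)) := by
      intro x hx x' hx' hxx
      have h1 := hσ x hx
      have h2 := hσ x' hx'
      rw [Finset.mem_coe, Finset.mem_filter] at hx hx'
      funext i
      have h3 : y x i = y x' i := by rw [h1, h2, hxx]
      simp only [hy, Int.cast_sub, Int.cast_natCast, sub_left_inj] at h3
      have h4 := (ZMod.natCast_eq_natCast_iff' _ _ _).mp h3
      have a1 := (hmem x hx.1).1 i
      have a2 := (hmem x' hx'.1).1 i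
      rcases lt_or_ge (x i) (p ^ r) with b1 | b1
      · rcases lt_or_ge (x' i) (p ^ r) with b2 | b2
        · rw [Nat.mod_eq_of_lt b1, Nat.mod_eq_of_lt b2] at h4
          exact h4
        · have e : x' i = p ^ r := by omega
          rw [e, Nat.mod_self, Nat.mod_eq_of_lt b1] at h4
          omega
      · have e : x i = p ^ r := by omega
        rcases lt_or_ge (x' i) (p ^ r) with b2 | b2
        · rw [e, Nat.mod_self, Nat.mod_eq_of_lt b2] at h4
          omega
        · omega
    have hcard := Finset.card_le_card_of_injOn σ (t := (Finset.univ : Finset (Equiv.Perm (Fin r))))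
      (fun _ _ => Finset.mem_coe.mpr (Finset.mem_univ _)) hinj
    rwa [Finset.card_univ, Fintype.card_perm, Fintype.card_fin] at hcard
  -- the image
  have himg : (F.image f).card ≤ p ^ (r * (r - 1) / 2) := by
    let T : Fin r → Finset (ZMod (p ^ r)) := fun j =>
      (Finset.range (p ^ (r - 1 - (j : ℕ)))).image
        (fun q : ℕ => ((c ((j : ℕ) + 1) + (p : ℤ) ^ ((j : ℕ) + 1) * q : ℤ) : ZMod (p ^ r)))
    have hsub : F.image f ⊆ Fintype.piFinset T := by
      intro v hv
      obtain ⟨x, hx, rfl⟩ := Finset.mem_image.mp hv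
      rw [Fintype.mem_piFinset]
      intro j
      have hj := j.2
      obtain ⟨m, hm⟩ := (hmem x hx).2.2 ((j : ℕ) + 1) (Finset.mem_Icc.mpr ⟨by omega, by omega⟩)
      have hpos : 0 < p ^ (r - 1 - (j : ℕ)) := pow_pos hp.pos _
      rw [Finset.mem_image]
      refine ⟨(m % (p ^ (r - 1 - (j : ℕ)) : ℕ)).toNat, ?_, ?_⟩
      · rw [Finset.mem_range]
        have h1 := Int.emod_nonneg m (by exact_mod_cast hpos.ne' :
          ((p ^ (r - 1 - (j : ℕ)) : ℕ) : ℤ) ≠ 0)
        have h2 := Int.emod_lt_of_pos m (by exact_mod_cast hpos :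
          (0 : ℤ) < ((p ^ (r - 1 - (j : ℕ)) : ℕ) : ℤ))
        omega
      · have h1 := Int.emod_nonneg m (by exact_mod_cast hpos.ne' :
          ((p ^ (r - 1 - (j : ℕ)) : ℕ) : ℤ) ≠ 0)
        rw [Int.toNat_of_nonneg h1]
        have h2 : f x j = ((∑ i, ((x i : ℤ) - a) ^ ((j : ℕ) + 1) : ℤ) : ZMod (p ^ r)) := by
          simp only [hf, hy]
          push_cast
          rfl
        rw [h2, ZMod.intCast_eq_intCast_iff_dvd_sub]
        have h3 : ∑ i, ((x i : ℤ) - a) ^ ((j : ℕ) + 1) =
            c ((j : ℕ) + 1) + (p : ℤ) ^ ((j : ℕ) + 1) * m := by linarith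
        rw [h3]
        have h4 : m - m % (p ^ (r - 1 - (j : ℕ)) : ℕ) =
            (p ^ (r - 1 - (j : ℕ)) : ℕ) * (m / (p ^ (r - 1 - (j : ℕ)) : ℕ)) := by
          have := Int.emod_add_mul_ediv m (p ^ (r - 1 - (j : ℕ)) : ℕ)
          linarith
        refine ⟨m / (p ^ (r - 1 - (j : ℕ)) : ℕ), ?_⟩
        have h5 : ((p ^ r : ℕ) : ℤ) = (p : ℤ) ^ ((j : ℕ) + 1) * ((p ^ (r - 1 - (j : ℕ)) : ℕ) : ℤ) := by
          push_cast
          rw [← pow_add]
          congr 1
          omega
        rw [h5]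
        linear_combination ((p : ℤ) ^ ((j : ℕ) + 1)) * h4
    refine (Finset.card_le_card hsub).trans ?_
    rw [Fintype.card_piFinset]
    have h1 : ∀ j : Fin r, (T j).card ≤ p ^ (r - 1 - (j : ℕ)) := fun j =>
      Finset.card_image_le.trans (by rw [Finset.card_range])
    refine (Finset.prod_le_prod' fun j _ => h1 j).trans (le_of_eq ?_)
    rw [Fin.prod_univ_eq_prod_range (fun j => p ^ (r - 1 - j)) r, Finset.prod_pow_eq_pow_sum,
      Finset.sum_range_reflect (fun j => j) r, Finset.sum_range_id]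
  refine (Finset.card_le_mul_card_image F r.factorial hfib).trans ?_
  exact Nat.mul_le_mul_left _ himg

end Pool.Agent.Y331.VK
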